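import Pool.Agent.Q296.Race3.Final

/-!
# Pattern races are not transitive near the uniform distribution

For seven letters and words of length three there are probability vectors `p`, arbitrarily close to
the uniform one, for which three words form a directed 3-cycle for the head-to-head relation with
independent sources.
-/

set_option autoImplicit false

namespace Pool.Agent.Results.MP_8d137a_pr.CycleNearUniform

open Pool.Agent.Q296.Race3

/-- For every `ε > 0` there are a probability vector `p` on seven letters with
`|p_i - 1/7| < ε` for all `i`, and three words `A`, `B`, `C` of length three with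
`P(A > B) > 1/2`, `P(B > C) > 1/2` and `P(C > A) > 1/2`. -/
theorem result :
    ∀ ε : ℝ, 0 < ε → ∃ p : Fin 7 → ℝ, (∀ i, 0 < p i) ∧ ∑ i, p i = 1 ∧
      (∀ i, |p i - 1 / 7| < ε) ∧
      ∃ A B C : List (Fin 7), A.length = 3 ∧ B.length = 3 ∧ C.length = 3 ∧
        1 / 2 < W p A B ∧ 1 / 2 < W p B C ∧ 1 / 2 < W p C A := by
  intro ε hε
  obtain ⟨p, h1, h2, h3, h4, h5, h6⟩ := cycle_near_uniform ε hε
  exact ⟨p, h1, h2, h3, [4, 5, 4], [2, 3, 2], [0, 1, 0], rfl, rfl, rfl, h4, h5, h6⟩

end Pool.Agent.Results.MP_8d137a_pr.CycleNearUniform
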